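import Mathlib

/-!
# MP_182bbb_co : dense `k`-graphs without a complete `k`-graph on `k+1` vertices
-/

open Finset

namespace MP_182bbb_co.H67

/-- Every finite set `S` carries a `k`-graph with at least `ρ * binom(|S|, k)` edges in which no
`k + 1` vertices span all `k + 1` possible edges. -/
def Dens (k : ℕ) (ρ : ℝ) : Prop :=
  ∀ (V : Type) [Fintype V] [DecidableEq V] (S : Finset V),
    ∃ F ⊆ S.powersetCard k, (∀ W ⊆ S, W.card = k + 1 → ∃ e ∈ W.powersetCard k, e ∉ F) ∧
      ρ * (S.card.choose k : ℝ) ≤ (F.card : ℝ)

lemma Dens.succ {k : ℕ} {ρ : ℝ} (h : Dens k ρ) : Dens (k + 1) ρ := by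
  intro V _ _ S
  induction S using Finset.induction_on with
  | empty =>
    refine ⟨∅, by simp, ?_, by simp⟩
    intro W hW hc
    rw [subset_empty] at hW
    subst hW
    simp at hc
  | insert a S ha ih =>
    obtain ⟨F1, hF1, hW1, hc1⟩ := ih
    obtain ⟨F0, hF0, hW0, hc0⟩ := h V S
    have hF1a : ∀ e ∈ F1, a ∉ e := fun e he hae =>
      ha ((mem_powersetCard.1 (hF1 he)).1 hae)
    have hF0a : ∀ e ∈ F0, a ∉ e := fun e he hae =>
      ha ((mem_powersetCard.1 (hF0 he)).1 hae)
    refine ⟨F1 ∪ F0.image (insert a), ?_, ?_, ?_⟩
    · intro e he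
      rw [mem_union, mem_image] at he
      rw [mem_powersetCard]
      rcases he with he | ⟨e0, he0, rfl⟩
      · have := mem_powersetCard.1 (hF1 he)
        exact ⟨this.1.trans (subset_insert _ _), this.2⟩
      · have := mem_powersetCard.1 (hF0 he0)
        exact ⟨insert_subset_insert _ this.1, by rw [card_insert_of_notMem (hF0a _ he0), this.2]⟩
    · intro W hW hWc
      by_cases haW : a ∈ W
      · have hsub : W.erase a ⊆ S := by
          intro x hx
          rw [mem_erase] at hx
          rcases mem_insert.1 (hW hx.2) with h | h
          · exact absurd h hx.1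
          · exact h
        have hcard : (W.erase a).card = k + 1 := by
          rw [card_erase_of_mem haW, hWc]
          rfl
        obtain ⟨e0, he0, hne⟩ := hW0 _ hsub hcard
        rw [mem_powersetCard] at he0
        have hae0 : a ∉ e0 := fun hh => by
          have := he0.1 hh
          simp at this
        refine ⟨insert a e0, ?_, ?_⟩
        · rw [mem_powersetCard]
          refine ⟨?_, by rw [card_insert_of_notMem hae0, he0.2]⟩
          intro x hx
          rcases mem_insert.1 hx with rfl | hx
          · exact haW
          · exact mem_of_mem_erase (he0.1 hx)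
        · rw [mem_union, mem_image]
          rintro (hh | ⟨e1, he1, hh⟩)
          · exact hF1a _ hh (mem_insert_self _ _)
          · have : e1 = e0 := by
              have h1 := hF0a _ he1
              rw [← erase_insert h1, hh, erase_insert hae0]
            exact hne (this ▸ he1)
      · have hsub : W ⊆ S := by
          intro x hx
          rcases mem_insert.1 (hW hx) with h | h
          · exact absurd (h ▸ hx) haW
          · exact h
        obtain ⟨e, he, hne⟩ := hW1 _ hsub hWc
        refine ⟨e, he, ?_⟩
        rw [mem_union, mem_image]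
        rintro (hh | ⟨e1, he1, hh⟩)
        · exact hne hh
        · refine haW ((mem_powersetCard.1 he).1 ?_)
          rw [← hh]
          exact mem_insert_self _ _
    · have hdisj : Disjoint F1 (F0.image (insert a)) := by
        rw [disjoint_left]
        intro e he he'
        obtain ⟨e1, -, rfl⟩ := mem_image.1 he'
        exact hF1a _ he (mem_insert_self _ _)
      have hinj : (F0.image (insert a)).card = F0.card := by
        apply card_image_of_injOn
        intro x hx y hy hxy
        have h1 := hF0a _ (mem_coe.1 hx)
        have h2 := hF0a _ (mem_coe.1 hy)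
        rw [← erase_insert h1, hxy, erase_insert h2]
      rw [card_union_of_disjoint hdisj, hinj, card_insert_of_notMem ha, Nat.choose_succ_succ]
      push_cast
      linarith

lemma Dens.mono {k l : ℕ} {ρ : ℝ} (h : Dens k ρ) (hkl : k ≤ l) : Dens l ρ := by
  induction l, hkl using Nat.le_induction with
  | base => exact h
  | succ l _ ih => exact ih.succ

/-! ### Colour patterns -/

/-- The number of colourings of a finite type whose restriction to the `k`-set `e` has a given
property (of multisets of colours). -/
lemma count_color {V C : Type} [Fintype V] [DecidableEq V] [Fintype C] [DecidableEq C]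
    (e : Finset V) (k : ℕ) (he : e.card = k) (P : Multiset C → Prop) [DecidablePred P] :
    (univ.filter (fun χ : V → C => P (e.val.map χ))).card =
      (univ.filter (fun f : Fin k → C => P (univ.val.map f))).card *
        (Fintype.card C) ^ (Fintype.card V - k) := by
  classical
  have key : ∀ χ : V → C, e.val.map χ =
      (univ : Finset {v // v ∈ e}).val.map (fun x => χ x.1) := by
    intro χ
    have h1 : (univ : Finset {v // v ∈ e}) = e.attach := rfl
    rw [h1]
    have : e.attach.val.map (fun x => χ x.1) = (e.attach.val.map Subtype.val).map χ := by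
      rw [Multiset.map_map]; rfl
    rw [this]
    congr 1
    exact (Multiset.attach_map_val e.val).symm
  have E1 : {χ : V → C // P (e.val.map χ)} ≃
      {f : {v // v ∈ e} → C // P ((univ : Finset {v // v ∈ e}).val.map f)} ×
        ({v // ¬ v ∈ e} → C) :=
    (Equiv.subtypeEquiv (Equiv.piEquivPiSubtypeProd (fun v => v ∈ e) (fun _ => C))
      (q := fun p => P ((univ : Finset {v // v ∈ e}).val.map p.1)) (by
        intro χ
        rw [key χ]
        rfl)).trans (Equiv.prodSubtypeFstEquivSubtypeProd
          (p := fun f : {v // v ∈ e} → C => P ((univ : Finset {v // v ∈ e}).val.map f)))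
  have E2 : {f : {v // v ∈ e} → C // P ((univ : Finset {v // v ∈ e}).val.map f)} ≃
      {f : Fin k → C // P ((univ : Finset (Fin k)).val.map f)} := by
    have g : {v // v ∈ e} ≃ Fin k := e.equivFinOfCardEq he
    refine Equiv.subtypeEquiv (Equiv.arrowCongr g (Equiv.refl C)) ?_
    intro f
    have : (univ : Finset (Fin k)).val.map ((Equiv.arrowCongr g (Equiv.refl C)) f) =
        (univ : Finset {v // v ∈ e}).val.map f := by
      have h2 : (univ : Finset (Fin k)) = (univ : Finset {v // v ∈ e}).map g.toEmbedding := by
        rw [Finset.map_univ_equiv]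
      rw [h2, Finset.map_val, Multiset.map_map]
      congr 1
      ext x
      simp [Equiv.arrowCongr]
    rw [this]
  rw [← Fintype.card_subtype, ← Fintype.card_subtype, Fintype.card_congr E1, Fintype.card_prod,
    Fintype.card_congr E2, Fintype.card_fun]
  congr 2
  have h3 := Fintype.card_subtype_compl (fun v => v ∈ e)
  rw [h3]
  congr 1
  rw [Fintype.card_coe, he]

/-- Colour patterns give dense `k`-graphs without complete `k`-graphs on `k+1` vertices. -/
lemma dens_of_pattern {C : Type} [Fintype C] [DecidableEq C] [Nonempty C] (k : ℕ)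
    (P : Multiset C → Prop) [DecidablePred P]
    (hP : ∀ m : Multiset C, m.card = k + 1 → ∃ c ∈ m, ¬ P (m.erase c)) (ρ : ℝ)
    (hρ : ρ * (Fintype.card C : ℝ) ^ k ≤
      ((univ.filter (fun f : Fin k → C => P (univ.val.map f))).card : ℝ)) : Dens k ρ := by
  intro V _ _ S
  classical
  let F : (V → C) → Finset (Finset V) := fun χ =>
    (S.powersetCard k).filter (fun e => P (e.val.map χ))
  -- the average
  have havg : ∃ χ : V → C, ρ * (S.card.choose k : ℝ) ≤ ((F χ).card : ℝ) := by
    by_cases hk : k ≤ S.card
    · by_contra hcon
      push Not at hcon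
      have h1 : (∑ χ : V → C, ((F χ).card : ℝ)) <
          ∑ _χ : V → C, ρ * (S.card.choose k : ℝ) := by
        apply Finset.sum_lt_sum_of_nonempty univ_nonempty
        intro χ _
        exact hcon χ
      have h2 : (∑ χ : V → C, (F χ).card) = ∑ e ∈ S.powersetCard k,
          (univ.filter (fun χ : V → C => P (e.val.map χ))).card := by
        simp only [F, Finset.card_filter]
        rw [Finset.sum_comm]
      have h3 : (∑ χ : V → C, (F χ).card) = (S.card.choose k) *
          ((univ.filter (fun f : Fin k → C => P (univ.val.map f))).card *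
            (Fintype.card C) ^ (Fintype.card V - k)) := by
        rw [h2, Finset.sum_congr rfl (g := fun _ =>
          (univ.filter (fun f : Fin k → C => P (univ.val.map f))).card *
            (Fintype.card C) ^ (Fintype.card V - k))]
        · rw [Finset.sum_const, card_powersetCard, smul_eq_mul]
        · intro e he
          exact count_color e k (mem_powersetCard.1 he).2 P
      have h4 : (∑ χ : V → C, ((F χ).card : ℝ)) = (S.card.choose k : ℝ) *
          (((univ.filter (fun f : Fin k → C => P (univ.val.map f))).card : ℝ) *
            (Fintype.card C : ℝ) ^ (Fintype.card V - k)) := by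
        rw [← Nat.cast_sum, h3]
        push_cast
        ring
      rw [h4, Finset.sum_const, card_univ, Fintype.card_fun, nsmul_eq_mul] at h1
      have hkV : k ≤ Fintype.card V := hk.trans (card_le_univ S)
      have h5 : ((Fintype.card C ^ Fintype.card V : ℕ) : ℝ) =
          (Fintype.card C : ℝ) ^ k * (Fintype.card C : ℝ) ^ (Fintype.card V - k) := by
        rw [← pow_add, Nat.add_sub_cancel' hkV]
        push_cast
        rfl
      rw [h5] at h1
      have h6 : (0 : ℝ) ≤ (S.card.choose k : ℝ) * (Fintype.card C : ℝ) ^ (Fintype.card V - k) := by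
        positivity
      nlinarith [mul_le_mul_of_nonneg_right hρ h6]
    · push Not at hk
      obtain ⟨c⟩ := (inferInstance : Nonempty C)
      refine ⟨fun _ => c, ?_⟩
      rw [Nat.choose_eq_zero_of_lt hk]
      simp
  obtain ⟨χ, hχ⟩ := havg
  refine ⟨F χ, filter_subset _ _, ?_, hχ⟩
  intro W _ hWc
  obtain ⟨c, hc, hnP⟩ := hP (W.val.map χ) (by rw [Multiset.card_map]; exact hWc)
  rw [Multiset.mem_map] at hc
  obtain ⟨v, hv, rfl⟩ := hc
  refine ⟨W.erase v, ?_, ?_⟩
  · rw [mem_powersetCard]
    refine ⟨erase_subset _ _, ?_⟩
    rw [card_erase_of_mem hv, hWc]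
    rfl
  · simp only [F, mem_filter, not_and]
    intro _
    rw [Finset.erase_val, Multiset.map_erase_of_mem _ _ hv]
    exact hnP

end MP_182bbb_co.H67
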