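import Pool.Agent.Lib.MP_182bbb_co.H67.Dens

/-!
# MP_182bbb_co : Giraud's 4-graphs

Rows and columns of a random `±1` matrix; a set of four vertices is an edge if it has an odd number
of rows, or two rows and two columns with an odd `2 × 2` submatrix.  Density `11/16`, and no five
vertices span five edges.
-/

open Finset

namespace MP_182bbb_co.H67

set_option linter.unusedSectionVars false

variable {V : Type} [Fintype V] [DecidableEq V]

/-- the rows of `e` -/
def rows (χ : V → Fin 2) (e : Finset V) : Finset V := e.filter (fun v => χ v = 0)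

/-- the columns of `e` -/
def cols (χ : V → Fin 2) (e : Finset V) : Finset V := e.filter (fun v => ¬ χ v = 0)

/-- the parity of the submatrix spanned by `e` -/
def par (χ : V → Fin 2) (ε : V × V → ZMod 2) (e : Finset V) : ZMod 2 :=
  ∑ a ∈ rows χ e, ∑ b ∈ cols χ e, ε (a, b)

/-- Giraud's edges -/
def gir (χ : V → Fin 2) (ε : V × V → ZMod 2) (e : Finset V) : Prop :=
  (rows χ e).card % 2 = 1 ∨ ((rows χ e).card = 2 ∧ par χ ε e = 1)

lemma rows_add_cols (χ : V → Fin 2) (e : Finset V) :
    (rows χ e).card + (cols χ e).card = e.card := card_filter_add_card_filter_not _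

lemma rows_erase (χ : V → Fin 2) (e : Finset V) (x : V) :
    rows χ (e.erase x) = (rows χ e).erase x := by
  unfold rows
  rw [filter_erase]

lemma cols_erase (χ : V → Fin 2) (e : Finset V) (x : V) :
    cols χ (e.erase x) = (cols χ e).erase x := by
  unfold cols
  rw [filter_erase]

lemma sum_erase_sum {M : Type} [AddCommGroup M] (B : Finset V) (f : V → M) :
    ∑ x ∈ B, ∑ b ∈ B.erase x, f b = (B.card : ℤ) • (∑ b ∈ B, f b) - ∑ b ∈ B, f b := by
  have : ∀ x ∈ B, ∑ b ∈ B.erase x, f b = (∑ b ∈ B, f b) - f x := by
    intro x hx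
    rw [← Finset.sum_erase_add _ _ hx]
    simp
  rw [Finset.sum_congr rfl this, Finset.sum_sub_distrib, Finset.sum_const]
  simp

lemma gir_free (χ : V → Fin 2) (ε : V × V → ZMod 2) (W : Finset V) (hW : W.card = 5) :
    ∃ x ∈ W, ¬ gir χ ε (W.erase x) := by
  by_contra hcon
  push Not at hcon
  have hadd := rows_add_cols χ W
  have hr : ∀ x ∈ rows χ W, x ∈ W ∧ (rows χ (W.erase x)).card + 1 = (rows χ W).card ∧
      cols χ (W.erase x) = cols χ W := by
    intro x hx
    have hx' := hx
    unfold rows at hx'
    rw [mem_filter] at hx'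
    refine ⟨hx'.1, ?_, ?_⟩
    · rw [rows_erase]
      exact card_erase_add_one hx
    · rw [cols_erase, erase_eq_of_notMem]
      unfold cols
      rw [mem_filter]
      exact fun h => h.2 hx'.2
  have hc : ∀ x ∈ cols χ W, x ∈ W ∧ rows χ (W.erase x) = rows χ W := by
    intro x hx
    have hx' := hx
    unfold cols at hx'
    rw [mem_filter] at hx'
    refine ⟨hx'.1, ?_⟩
    rw [rows_erase, erase_eq_of_notMem]
    unfold rows
    rw [mem_filter]
    exact fun h => hx'.2 h.2
  have h1 : (rows χ W).card = 2 ∨ (rows χ W).card = 3 := by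
    rcases (cols χ W).eq_empty_or_nonempty with h | ⟨y, hy⟩
    · rw [h, card_empty] at hadd
      have hpos : 0 < (rows χ W).card := by omega
      obtain ⟨x, hx⟩ := card_pos.1 hpos
      obtain ⟨hxW, h2, -⟩ := hr x hx
      rcases hcon x hxW with h3 | h3
      · omega
      · omega
    · obtain ⟨hyW, h2⟩ := hc y hy
      have h3 := hcon y hyW
      unfold gir at h3
      rw [h2] at h3
      rcases h3 with h3 | h3
      · by_contra hne
        push Not at hne
        have hpos : 0 < (rows χ W).card := by omega
        obtain ⟨x, hx⟩ := card_pos.1 hpos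
        obtain ⟨hxW, h4, -⟩ := hr x hx
        rcases hcon x hxW with h5 | h5
        · omega
        · omega
      · exact Or.inl h3.1
  rcases h1 with h1 | h1
  · have hcc : (cols χ W).card = 3 := by omega
    have h2 : ∀ x ∈ cols χ W, par χ ε (W.erase x) = 1 := by
      intro x hx
      obtain ⟨hxW, h3⟩ := hc x hx
      rcases hcon x hxW with h4 | h4
      · rw [h3] at h4
        omega
      · exact h4.2
    have h3 : ∑ x ∈ cols χ W, par χ ε (W.erase x) = 1 := by
      rw [Finset.sum_congr rfl h2, Finset.sum_const, hcc]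
      decide
    have h4 : ∑ x ∈ cols χ W, par χ ε (W.erase x) = 0 := by
      have : ∀ x ∈ cols χ W, par χ ε (W.erase x) =
          ∑ b ∈ (cols χ W).erase x, ∑ a ∈ rows χ W, ε (a, b) := by
        intro x hx
        unfold par
        rw [(hc x hx).2, cols_erase, Finset.sum_comm]
      rw [Finset.sum_congr rfl this, sum_erase_sum, hcc]
      generalize ∑ b ∈ cols χ W, ∑ a ∈ rows χ W, ε (a, b) = z
      revert z
      decide
    rw [h3] at h4
    exact absurd h4 (by decide)
  · have h2 : ∀ x ∈ rows χ W, par χ ε (W.erase x) = 1 := by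
      intro x hx
      obtain ⟨hxW, h3, -⟩ := hr x hx
      rcases hcon x hxW with h4 | h4
      · omega
      · exact h4.2
    have h3 : ∑ x ∈ rows χ W, par χ ε (W.erase x) = 1 := by
      rw [Finset.sum_congr rfl h2, Finset.sum_const, h1]
      decide
    have h4 : ∑ x ∈ rows χ W, par χ ε (W.erase x) = 0 := by
      have : ∀ x ∈ rows χ W, par χ ε (W.erase x) =
          ∑ a ∈ (rows χ W).erase x, ∑ b ∈ cols χ W, ε (a, b) := by
        intro x hx
        unfold par
        rw [(hr x hx).2.2, rows_erase]
      rw [Finset.sum_congr rfl this, sum_erase_sum, h1]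
      generalize ∑ a ∈ rows χ W, ∑ b ∈ cols χ W, ε (a, b) = z
      revert z
      decide
    rw [h3] at h4
    exact absurd h4 (by decide)

lemma card_rows (χ : V → Fin 2) (e : Finset V) :
    (rows χ e).card = (e.val.map χ).count 0 := by
  unfold rows
  rw [Multiset.count_map, Finset.card_def, Finset.filter_val]
  congr 1
  apply Multiset.filter_congr
  intro x _
  exact eq_comm

open Classical in
/-- half of all matrices have a given submatrix odd -/
lemma half (χ : V → Fin 2) (e : Finset V) (h1 : (rows χ e).Nonempty) (h2 : (cols χ e).Nonempty) :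
    2 * (univ.filter (fun ε : V × V → ZMod 2 => par χ ε e = 1)).card =
      Fintype.card (V × V → ZMod 2) := by
  obtain ⟨a, ha⟩ := h1
  obtain ⟨b, hb⟩ := h2
  have hflip : ∀ ε : V × V → ZMod 2, par χ (ε + Pi.single (a, b) 1) e = par χ ε e + 1 := by
    intro ε
    unfold par
    simp only [Pi.add_apply, Finset.sum_add_distrib]
    congr 1
    rw [Finset.sum_eq_single a, Finset.sum_eq_single b]
    · simp
    · intro b' _ hb'
      rw [Pi.single_apply, if_neg]
      exact fun h => hb' (Prod.ext_iff.1 h).2
    · intro h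
      exact absurd hb h
    · intro a' _ ha'
      apply Finset.sum_eq_zero
      intro b' _
      rw [Pi.single_apply, if_neg]
      exact fun h => ha' (Prod.ext_iff.1 h).1
    · intro h
      exact absurd ha h
  have h3 : (univ.filter (fun ε : V × V → ZMod 2 => ¬ par χ ε e = 1)).card =
      (univ.filter (fun ε : V × V → ZMod 2 => par χ ε e = 1)).card := by
    apply card_bij (fun ε _ => ε + Pi.single (a, b) 1)
    · intro ε hε
      rw [mem_filter] at hε ⊢
      refine ⟨mem_univ _, ?_⟩
      rw [hflip]
      have h5 : ∀ z : ZMod 2, ¬ z = 1 → z + 1 = 1 := by decide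
      exact h5 _ hε.2
    · intro ε _ ε' _ h
      exact add_right_cancel h
    · intro ε hε
      rw [mem_filter] at hε
      refine ⟨ε - Pi.single (a, b) 1, ?_, by abel⟩
      rw [mem_filter]
      refine ⟨mem_univ _, ?_⟩
      have h4 := hflip (ε - Pi.single (a, b) 1)
      rw [sub_add_cancel, hε.2] at h4
      have h5 : ∀ z : ZMod 2, (1 : ZMod 2) = z + 1 → ¬ z = 1 := by decide
      exact h5 _ h4
  have h4 := card_filter_add_card_filter_not (s := (univ : Finset (V × V → ZMod 2)))
    (fun ε => par χ ε e = 1)
  rw [card_univ, h3] at h4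
  omega

lemma count_odd : (univ.filter (fun f : Fin 4 → Fin 2 =>
    (Multiset.map f univ.val).count 0 % 2 = 1)).card = 8 := by
  decide +kernel

lemma count_two : (univ.filter (fun f : Fin 4 → Fin 2 =>
    (Multiset.map f univ.val).count 0 = 2)).card = 6 := by
  decide +kernel

open Classical in
lemma count_gir (e : Finset V) (he : e.card = 4) :
    (univ.filter (fun ω : (V → Fin 2) × (V × V → ZMod 2) => gir ω.1 ω.2 e)).card =
      11 * 2 ^ (Fintype.card V - 4) * Fintype.card (V × V → ZMod 2) := by
  have h1 : (univ.filter (fun ω : (V → Fin 2) × (V × V → ZMod 2) => gir ω.1 ω.2 e)).card =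
      ∑ χ : V → Fin 2, (univ.filter (fun ε : V × V → ZMod 2 => gir χ ε e)).card := by
    simp only [Finset.card_filter]
    rw [Fintype.sum_prod_type]
  have h2 : ∀ χ : V → Fin 2, 2 * (univ.filter (fun ε : V × V → ZMod 2 => gir χ ε e)).card =
      (2 * (if (Multiset.map χ e.val).count 0 % 2 = 1 then 1 else 0) +
        (if (Multiset.map χ e.val).count 0 = 2 then 1 else 0)) *
          Fintype.card (V × V → ZMod 2) := by
    intro χ
    rw [← card_rows]
    by_cases h3 : (rows χ e).card % 2 = 1
    · have h7 : (univ.filter (fun ε : V × V → ZMod 2 => gir χ ε e)) = univ :=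
        filter_true_of_mem (fun ε _ => Or.inl h3)
      rw [if_pos h3, if_neg (by omega), h7, card_univ]
    · rw [if_neg h3]
      by_cases h4 : (rows χ e).card = 2
      · rw [if_pos h4]
        have h5 := rows_add_cols χ e
        have h6 := half χ e (card_pos.1 (by omega)) (card_pos.1 (by omega))
        have h7 : (univ.filter (fun ε : V × V → ZMod 2 => gir χ ε e)) =
            (univ.filter (fun ε : V × V → ZMod 2 => par χ ε e = 1)) := by
          apply Finset.filter_congr
          intro ε _
          unfold gir
          constructor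
          · rintro (h | h)
            · exact absurd h h3
            · exact h.2
          · intro h
            exact Or.inr ⟨h4, h⟩
        rw [h7, h6]
        ring
      · rw [if_neg h4, filter_false_of_mem]
        · simp
        · intro ε _
          unfold gir
          rintro (h | h)
          · exact h3 h
          · exact h4 h.1
  have h3 : 2 * (univ.filter (fun ω : (V → Fin 2) × (V × V → ZMod 2) => gir ω.1 ω.2 e)).card =
      (2 * (univ.filter (fun χ : V → Fin 2 => (Multiset.map χ e.val).count 0 % 2 = 1)).card +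
        (univ.filter (fun χ : V → Fin 2 => (Multiset.map χ e.val).count 0 = 2)).card) *
          Fintype.card (V × V → ZMod 2) := by
    rw [h1, Finset.mul_sum, Finset.sum_congr rfl (fun χ _ => h2 χ), ← Finset.sum_mul,
      Finset.sum_add_distrib, ← Finset.mul_sum, Finset.card_filter, Finset.card_filter]
  have h4 := count_color (C := Fin 2) e 4 he (fun m => m.count 0 % 2 = 1)
  have h5 := count_color (C := Fin 2) e 4 he (fun m => m.count 0 = 2)
  rw [count_odd, Fintype.card_fin] at h4
  rw [count_two, Fintype.card_fin] at h5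
  rw [h4, h5] at h3
  have h6 : 2 * (11 * 2 ^ (Fintype.card V - 4) * Fintype.card (V × V → ZMod 2)) =
      (2 * (8 * 2 ^ (Fintype.card V - 4)) + 6 * 2 ^ (Fintype.card V - 4)) *
        Fintype.card (V × V → ZMod 2) := by ring
  omega

lemma dens_giraud : Dens 4 (11 / 16) := by
  intro V _ _ S
  classical
  let F : ((V → Fin 2) × (V × V → ZMod 2)) → Finset (Finset V) := fun ω =>
    (S.powersetCard 4).filter (fun e => gir ω.1 ω.2 e)
  have havg : ∃ ω, (11 / 16 : ℝ) * (S.card.choose 4 : ℝ) ≤ ((F ω).card : ℝ) := by
    by_cases hk : 4 ≤ S.card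
    · by_contra hcon
      push Not at hcon
      have h1 : (∑ ω, ((F ω).card : ℝ)) <
          ∑ _ω : (V → Fin 2) × (V × V → ZMod 2), (11 / 16 : ℝ) * (S.card.choose 4 : ℝ) := by
        apply Finset.sum_lt_sum_of_nonempty univ_nonempty
        intro ω _
        exact hcon ω
      have h2 : (∑ ω, (F ω).card) = ∑ e ∈ S.powersetCard 4,
          (univ.filter (fun ω : (V → Fin 2) × (V × V → ZMod 2) => gir ω.1 ω.2 e)).card := by
        simp only [F, Finset.card_filter]
        rw [Finset.sum_comm]
      have h3 : (∑ ω, (F ω).card) = (S.card.choose 4) *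
          (11 * 2 ^ (Fintype.card V - 4) * Fintype.card (V × V → ZMod 2)) := by
        rw [h2, Finset.sum_congr rfl (g := fun _ =>
          11 * 2 ^ (Fintype.card V - 4) * Fintype.card (V × V → ZMod 2))]
        · rw [Finset.sum_const, card_powersetCard, smul_eq_mul]
        · intro e he
          exact count_gir e (mem_powersetCard.1 he).2
      have h4 : (∑ ω, ((F ω).card : ℝ)) = (S.card.choose 4 : ℝ) *
          (11 * 2 ^ (Fintype.card V - 4) * (Fintype.card (V × V → ZMod 2) : ℝ)) := by
        rw [← Nat.cast_sum, h3]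
        push_cast
        ring
      have hkV : 4 ≤ Fintype.card V := hk.trans (card_le_univ S)
      have h5 : (Fintype.card ((V → Fin 2) × (V × V → ZMod 2)) : ℝ) =
          2 ^ 4 * 2 ^ (Fintype.card V - 4) * (Fintype.card (V × V → ZMod 2) : ℝ) := by
        rw [Fintype.card_prod, Nat.cast_mul, ← pow_add, Nat.add_sub_cancel' hkV]
        congr 1
        rw [Fintype.card_fun, Fintype.card_fin]
        push_cast
        rfl
      rw [h4, Finset.sum_const, card_univ, nsmul_eq_mul, h5] at h1
      refine absurd h1 (not_lt.2 (le_of_eq ?_))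
      ring
    · push Not at hk
      refine ⟨⟨fun _ => 0, fun _ => 0⟩, ?_⟩
      rw [Nat.choose_eq_zero_of_lt hk]
      simp
  obtain ⟨ω, hω⟩ := havg
  refine ⟨F ω, filter_subset _ _, ?_, hω⟩
  intro W _ hWc
  obtain ⟨x, hx, hnP⟩ := gir_free ω.1 ω.2 W hWc
  refine ⟨W.erase x, ?_, ?_⟩
  · rw [mem_powersetCard]
    refine ⟨erase_subset _ _, ?_⟩
    rw [card_erase_of_mem hx, hWc]
  · simp only [F, mem_filter, not_and]
    intro _
    exact hnP

end MP_182bbb_co.H67
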