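import Pool.Agent.Lib.MP_182bbb_co.H67.Dens

/-!
# MP_182bbb_co : a colour pattern for large uniformity
-/

open Finset

namespace MP_182bbb_co.H67

/-! ### Large uniformity: density tending to one -/

/-- Every colour occurs and the sum of the colours is not zero. -/
def PL (l : ℕ) [NeZero l] (m : Multiset (ZMod l)) : Prop := (∀ c, c ∈ m) ∧ m.sum ≠ 0

lemma PL_erase (l : ℕ) [NeZero l] (k : ℕ) (m : Multiset (ZMod l)) (hm : m.card = k + 1) :
    ∃ c ∈ m, ¬ PL l (m.erase c) := by
  by_cases h : ∀ c, c ∈ m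
  · refine ⟨m.sum, h _, ?_⟩
    rintro ⟨-, h2⟩
    apply h2
    have := Multiset.sum_erase (h m.sum)
    exact add_eq_left.1 this
  · push Not at h
    obtain ⟨c, hc⟩ := h
    have hne : m ≠ 0 := by
      rintro rfl
      simp at hm
    obtain ⟨d, hd⟩ := Multiset.exists_mem_of_ne_zero hne
    refine ⟨d, hd, ?_⟩
    rintro ⟨h1, -⟩
    exact hc (Multiset.mem_of_mem_erase (h1 c))

open Classical in
lemma PL_count (l : ℕ) [NeZero l] (k : ℕ) (hk : 0 < k) :
    ((l : ℝ) ^ k - (l : ℝ) ^ (k - 1) - (l : ℝ) * ((l : ℝ) - 1) ^ k) ≤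
      ((univ.filter (fun f : Fin k → ZMod l => PL l (univ.val.map f))).card : ℝ) := by
  obtain ⟨j, rfl⟩ : ∃ j, k = j + 1 := ⟨k - 1, by omega⟩
  have hl : 0 < l := Nat.pos_of_ne_zero (NeZero.ne l)
  -- functions with sum zero
  have h1 : (univ.filter (fun f : Fin (j + 1) → ZMod l => ∑ i, f i = 0)).card = l ^ j := by
    have : (univ.filter (fun f : Fin (j + 1) → ZMod l => ∑ i, f i = 0)).card =
        (univ : Finset (Fin j → ZMod l)).card := by
      symm
      apply card_bij (fun (g : Fin j → ZMod l) _ => Fin.cons (-∑ i, g i) g)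
      · intro g _
        rw [mem_filter]
        refine ⟨mem_univ _, ?_⟩
        rw [Fin.sum_univ_succ]
        simp
      · intro g _ g' _ h
        funext i
        have := congrFun h i.succ
        simpa using this
      · intro f hf
        rw [mem_filter, Fin.sum_univ_succ] at hf
        refine ⟨Fin.tail f, mem_univ _, ?_⟩
        funext i
        refine Fin.cases ?_ (fun i => ?_) i
        · have h0 := hf.2
          simp only [Fin.cons_zero, Fin.tail]
          exact (eq_neg_of_add_eq_zero_left h0).symm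
        · simp [Fin.tail]
    rw [this, card_univ, Fintype.card_fun, ZMod.card, Fintype.card_fin]
  -- functions missing the colour `c`
  have h2 : ∀ c : ZMod l, (univ.filter (fun f : Fin (j + 1) → ZMod l => ∀ i, f i ≠ c)).card =
      (l - 1) ^ (j + 1) := by
    intro c
    have : (univ.filter (fun f : Fin (j + 1) → ZMod l => ∀ i, f i ≠ c)) =
        Fintype.piFinset (fun _ : Fin (j + 1) => (univ.erase c : Finset (ZMod l))) := by
      ext f
      simp [Fintype.mem_piFinset]
    rw [this, Fintype.card_piFinset]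
    simp [card_erase_of_mem, ZMod.card]
  have hcov : (univ : Finset (Fin (j + 1) → ZMod l)) ⊆
      (univ.filter (fun f : Fin (j + 1) → ZMod l => PL l (univ.val.map f))) ∪
      ((univ.filter (fun f : Fin (j + 1) → ZMod l => ∑ i, f i = 0)) ∪
        (univ : Finset (ZMod l)).biUnion
          (fun c => univ.filter (fun f : Fin (j + 1) → ZMod l => ∀ i, f i ≠ c))) := by
    intro f _
    rw [mem_union, mem_union, mem_biUnion, mem_filter, mem_filter]
    by_cases hs : ∑ i, f i = 0
    · exact Or.inr (Or.inl ⟨mem_univ _, hs⟩)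
    by_cases hc : ∃ c, ∀ i, f i ≠ c
    · obtain ⟨c, hc⟩ := hc
      exact Or.inr (Or.inr ⟨c, mem_univ _, by rw [mem_filter]; exact ⟨mem_univ _, hc⟩⟩)
    · left
      refine ⟨mem_univ _, ?_, ?_⟩
      · intro c
        push Not at hc
        obtain ⟨i, hi⟩ := hc c
        rw [Multiset.mem_map]
        exact ⟨i, mem_univ_val i, hi⟩
      · exact hs
  have hcard := (card_le_card hcov).trans ((card_union_le _ _).trans
    (Nat.add_le_add_left ((card_union_le _ _).trans
      (Nat.add_le_add_left card_biUnion_le _)) _))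
  rw [h1, Finset.sum_congr rfl (fun c _ => h2 c), Finset.sum_const, card_univ, card_univ,
    Fintype.card_fun, ZMod.card, Fintype.card_fin, smul_eq_mul] at hcard
  have hcast : ((l ^ (j + 1) : ℕ) : ℝ) ≤
      (((univ.filter (fun f : Fin (j + 1) → ZMod l => PL l (univ.val.map f))).card +
        (l ^ j + l * (l - 1) ^ (j + 1)) : ℕ) : ℝ) := by exact_mod_cast hcard
  push_cast [Nat.cast_sub (show 1 ≤ l from hl)] at hcast
  simp only [Nat.add_sub_cancel]
  linarith

open Classical in
/-- `Dens k (1 - 1/l - l (1 - 1/l)^k)`. -/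
lemma dens_large (l : ℕ) (hl : 0 < l) (k : ℕ) (hk : 0 < k) :
    Dens k (1 - 1 / (l : ℝ) - (l : ℝ) * (1 - 1 / (l : ℝ)) ^ k) := by
  haveI : NeZero l := ⟨hl.ne'⟩
  refine dens_of_pattern (C := ZMod l) k (PL l) (PL_erase l k) _ ?_
  rw [ZMod.card]
  refine le_trans (le_of_eq ?_) (PL_count l k hk)
  obtain ⟨j, rfl⟩ : ∃ j, k = j + 1 := ⟨k - 1, by omega⟩
  have hl' : (l : ℝ) ≠ 0 := by exact_mod_cast hl.ne'
  have h3 : (1 - 1 / (l : ℝ)) = ((l : ℝ) - 1) / l := by field_simp
  simp only [Nat.add_sub_cancel]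
  rw [h3, div_pow]
  field_simp
  ring

end MP_182bbb_co.H67
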