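import Pool.Agent.Lib.MP_182bbb_co.H67.Tree
import Pool.Agent.Lib.MP_182bbb_co.H67.Pattern
import Pool.Agent.Lib.MP_182bbb_co.H67.Giraud

/-!
# MP_182bbb_co : the crosscut number of `T^+` is not the limit for `r ≥ 5`
-/

open Finset hiding shadow
open Filter Topology MP_182bbb_co.H5

namespace MP_182bbb_co.H67

lemma Dens.mono_density {k : ℕ} {ρ ρ' : ℝ} (h : Dens k ρ) (hρ : ρ' ≤ ρ) : Dens k ρ' := by
  intro V _ _ S
  obtain ⟨F, h1, h2, h3⟩ := h V S
  exact ⟨F, h1, h2, (mul_le_mul_of_nonneg_right hρ (by positivity)).trans h3⟩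

/-- If `0 ≤ a < b` then `a binom(n, k) ≤ b binom(n - m, k)` for all large `n`. -/
lemma eventually_choose (k m : ℕ) {a b : ℝ} (ha : 0 ≤ a) (hab : a < b) :
    ∀ᶠ n : ℕ in atTop, a * (n.choose k : ℝ) ≤ b * ((n - m).choose k : ℝ) := by
  have h1 : Tendsto (fun n : ℕ => b * ((1 : ℝ) - ((m + k : ℕ) : ℝ) / (n : ℝ)) ^ k) atTop
      (𝓝 (b * ((1 : ℝ) - 0) ^ k)) := by
    refine Tendsto.const_mul _ (Tendsto.pow (Tendsto.sub tendsto_const_nhds ?_) _)
    exact tendsto_const_div_atTop_nhds_zero_nat _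
  rw [sub_zero, one_pow, mul_one] at h1
  have hb : 0 < b := lt_of_le_of_lt ha hab
  filter_upwards [h1.eventually (lt_mem_nhds hab), eventually_ge_atTop (m + k + 1)] with n hn hn2
  have hn0 : (0 : ℝ) < n := by
    have : 0 < n := by omega
    exact_mod_cast this
  have hk : (0 : ℝ) < (k.factorial : ℝ) := by exact_mod_cast k.factorial_pos
  have e1 : (n.choose k : ℝ) ≤ (n : ℝ) ^ k / k.factorial := by
    exact_mod_cast Nat.choose_le_pow_div k n
  have e2 : ((n : ℝ) - ((m + k : ℕ) : ℝ)) ^ k / k.factorial ≤ ((n - m).choose k : ℝ) := by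
    rw [div_le_iff₀ hk]
    have h2 := Nat.pow_sub_le_descFactorial (n - m) k
    rw [Nat.descFactorial_eq_factorial_mul_choose] at h2
    have h3 : ((n : ℝ) - ((m + k : ℕ) : ℝ)) ^ k ≤ (((n - m + 1 - k) ^ k : ℕ) : ℝ) := by
      rw [Nat.cast_pow]
      apply pow_le_pow_left₀
      · have : ((m + k : ℕ) : ℝ) ≤ n := by
          exact_mod_cast (by omega : m + k ≤ n)
        linarith
      · rw [← Nat.cast_sub (by omega)]
        exact_mod_cast (by omega : n - (m + k) ≤ n - m + 1 - k)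
    refine h3.trans ?_
    have h4 : (((n - m + 1 - k) ^ k : ℕ) : ℝ) ≤ ((k.factorial * (n - m).choose k : ℕ) : ℝ) := by
      exact_mod_cast h2
    refine h4.trans ?_
    rw [Nat.cast_mul, mul_comm]
  calc a * (n.choose k : ℝ) ≤ a * ((n : ℝ) ^ k / k.factorial) := mul_le_mul_of_nonneg_left e1 ha
    _ ≤ (b * ((1 : ℝ) - ((m + k : ℕ) : ℝ) / (n : ℝ)) ^ k) * ((n : ℝ) ^ k / k.factorial) :=
        mul_le_mul_of_nonneg_right hn.le (by positivity)
    _ = b * (((n : ℝ) - ((m + k : ℕ) : ℝ)) ^ k / k.factorial) := by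
        have : (1 : ℝ) - ((m + k : ℕ) : ℝ) / (n : ℝ) = ((n : ℝ) - ((m + k : ℕ) : ℝ)) / n := by
          field_simp
        rw [this, div_pow]
        field_simp
    _ ≤ b * ((n - m).choose k : ℝ) := mul_le_mul_of_nonneg_left e2 hb.le

/-- The trees beat the crosscut number by every factor below `ρ (2r - 1) / r`. -/
theorem tree_beats {k : ℕ} (hk : 2 ≤ k) {ρ : ℝ} (hρ : Dens k ρ) (c : ℝ)
    (hc : c * ((k : ℝ) + 1) < ρ * (2 * (k : ℝ) + 1)) :
    ∃ M : ℕ, ∀ᶠ n : ℕ in atTop,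
      c * (crosscut (expansion 1 (shadow (tree k M))) : ℝ) * (n.choose k : ℝ) ≤
        (ex (k + 1) n (expansion 1 (shadow (tree k M))) : ℝ) := by
  rcases le_or_gt c 0 with hc0 | hc0
  · refine ⟨0, Filter.Eventually.of_forall (fun n => ?_)⟩
    have h1 : c * (crosscut (expansion 1 (shadow (tree k 0))) : ℝ) * (n.choose k : ℝ) ≤ 0 := by
      rw [mul_assoc]
      exact mul_nonpos_of_nonpos_of_nonneg hc0 (by positivity)
    exact h1.trans (by positivity)
  · set C0 : ℕ := (k + 1) + (k + 1) * (k * (k + 1) + 1) with hC0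
    set d : ℝ := ρ * (2 * (k : ℝ) + 1) - c * ((k : ℝ) + 1) with hd
    have hd0 : 0 < d := by rw [hd]; linarith
    obtain ⟨M, hM⟩ := exists_nat_gt ((c * C0 + |ρ|) / d)
    rw [div_lt_iff₀ hd0] at hM
    have hM1 : 1 ≤ M := by
      rcases Nat.eq_zero_or_pos M with h | h
      · subst h
        exfalso
        rw [Nat.cast_zero, zero_mul] at hM
        have : 0 ≤ c * (C0 : ℝ) + |ρ| := by positivity
        linarith
      · exact h
    set m : ℕ := (2 * k + 1) * M - 1 with hm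
    have hm1 : m + 1 = (2 * k + 1) * M := by
      have : 1 ≤ (2 * k + 1) * M := Nat.one_le_iff_ne_zero.2 (by positivity)
      omega
    have hm2 : (m : ℝ) = (2 * (k : ℝ) + 1) * M - 1 := by
      have : ((m + 1 : ℕ) : ℝ) = (((2 * k + 1) * M : ℕ) : ℝ) := by rw [hm1]
      push_cast at this
      linarith
    refine ⟨M, ?_⟩
    have hab : c * ((C0 : ℝ) + (k + 1) * M) < ρ * m := by
      rw [hm2]
      have h1 : ρ ≤ |ρ| := le_abs_self ρ
      have h2 : (M : ℝ) * d = ρ * ((2 * (k : ℝ) + 1) * M) - c * (((k : ℝ) + 1) * M) := by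
        rw [hd]; ring
      rw [h2] at hM
      linarith
    have ha : 0 ≤ c * ((C0 : ℝ) + (k + 1) * M) := by positivity
    filter_upwards [eventually_choose k m ha hab, eventually_ge_atTop m] with n hn hn2
    have h1 := lower_gen (H := tree k M) (by omega) (tree_uniform k M) hρ m
      (fun I _ h1 h2 => by rw [hm1]; exact cost_tree hk M I h1 h2) n hn2
    have h2 : (crosscut (expansion 1 (shadow (tree k M))) : ℝ) ≤ (C0 : ℝ) + (k + 1) * M := by
      have := crosscut_le (k := k) M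
      rw [← add_assoc, ← hC0] at this
      exact_mod_cast this
    calc c * (crosscut (expansion 1 (shadow (tree k M))) : ℝ) * (n.choose k : ℝ)
        ≤ c * ((C0 : ℝ) + (k + 1) * M) * (n.choose k : ℝ) := by
          apply mul_le_mul_of_nonneg_right _ (by positivity)
          exact mul_le_mul_of_nonneg_left h2 hc0.le
      _ ≤ ρ * m * ((n - m).choose k : ℝ) := hn
      _ ≤ _ := h1

lemma shadow_tree_nonempty (k M : ℕ) : (shadow (tree k M)).Nonempty :=
  ⟨(core k 0).erase (Sum.inl 0), mem_shadow.2 ⟨core k 0, mem_tree.2 (Or.inl ⟨0, by omega, rfl⟩),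
    Sum.inl 0, inl_mem_core.2 ⟨by omega, by omega⟩, rfl⟩⟩

/-- For every `ρ < 1` there are, in all large uniformities, graphs of density `ρ` without a
complete graph on one vertex more. -/
lemma exists_dens {ρ : ℝ} (hρ : ρ < 1) : ∃ k0 : ℕ, ∀ k ≥ k0, Dens k ρ := by
  obtain ⟨l, hl⟩ := exists_nat_gt (2 / (1 - ρ))
  have h1 : 0 < 1 - ρ := by linarith
  have hl0 : (0 : ℝ) < l := lt_trans (by positivity) hl
  have hl1 : 0 < l := by exact_mod_cast hl0
  have h2 : 1 / (l : ℝ) < (1 - ρ) / 2 := by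
    rw [div_lt_iff₀ h1] at hl
    rw [div_lt_div_iff₀ hl0 (by norm_num)]
    linarith
  have h3 : Tendsto (fun k : ℕ => (l : ℝ) * (1 - 1 / (l : ℝ)) ^ k) atTop (𝓝 ((l : ℝ) * 0)) := by
    refine Tendsto.const_mul _ (tendsto_pow_atTop_nhds_zero_of_lt_one ?_ ?_)
    · have : 1 / (l : ℝ) ≤ 1 := by
        rw [div_le_one hl0]
        exact_mod_cast hl1
      linarith
    · have : 0 < 1 / (l : ℝ) := by positivity
      linarith
  rw [mul_zero] at h3
  have h4 := h3.eventually (gt_mem_nhds (show (0 : ℝ) < (1 - ρ) / 2 by linarith))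
  obtain ⟨k0, hk0⟩ := (h4.and (eventually_gt_atTop 0)).exists
  refine ⟨k0, fun k hk => Dens.mono ?_ hk⟩
  refine (dens_large l hl1 k0 hk0.2).mono_density ?_
  linarith [hk0.1]

theorem main_five (r : ℕ) (hr : 5 ≤ r) (c : ℝ) (hc : c < 99 / 80) :
    ∃ M : ℕ, ∀ᶠ n : ℕ in atTop,
      c * (crosscut (expansion 1 (shadow (tree (r - 1) M))) : ℝ) * (n.choose (r - 1) : ℝ) ≤
        (ex r n (expansion 1 (shadow (tree (r - 1) M))) : ℝ) := by
  obtain ⟨k, rfl⟩ : ∃ k, r = k + 1 := ⟨r - 1, by omega⟩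
  have hk : 4 ≤ k := by omega
  have h := tree_beats (k := k) (by omega) (dens_giraud.mono hk) c (by
    have hk' : (4 : ℝ) ≤ k := by exact_mod_cast hk
    nlinarith)
  simpa using h

theorem main_large (c : ℝ) (hc : c < 2) : ∃ r₀ : ℕ, ∀ r ≥ r₀,
    3 ≤ r ∧ ∃ M : ℕ, ∀ᶠ n : ℕ in atTop,
      c * (crosscut (expansion 1 (shadow (tree (r - 1) M))) : ℝ) * (n.choose (r - 1) : ℝ) ≤
        (ex r n (expansion 1 (shadow (tree (r - 1) M))) : ℝ) := by
  obtain ⟨k0, hk0⟩ := exists_dens (ρ := (c + 2) / 4) (by linarith)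
  obtain ⟨k1, hk1⟩ := exists_nat_gt ((3 * c - 2) / (2 * (2 - c)))
  refine ⟨k0 + k1 + 3, fun r hr => ⟨by omega, ?_⟩⟩
  obtain ⟨k, rfl⟩ : ∃ k, r = k + 1 := ⟨r - 1, by omega⟩
  have h := tree_beats (k := k) (by omega) (hk0 k (by omega)) c (by
    rw [div_lt_iff₀ (by linarith)] at hk1
    have hk' : (k1 : ℝ) ≤ k := by exact_mod_cast (by omega : k1 ≤ k)
    have : (k1 : ℝ) * (2 * (2 - c)) ≤ k * (2 * (2 - c)) :=
      mul_le_mul_of_nonneg_right hk' (by linarith)
    linarith)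
  simpa using h

/-- There is an `r`-uniform tight tree `H` for which `ex_r(n, (∂H)^+)` is eventually at least
`c σ binom(n, r - 1)`, with `σ` the crosscut number of `(∂H)^+`. -/
def Beats (r : ℕ) (c : ℝ) : Prop :=
  ∃ H : Finset (Finset (ℕ ⊕ (ℕ × ℕ))), H.Nonempty ∧ IsUniform r H ∧ IsTightTree H ∧
    0 < crosscut (expansion 1 (shadow H)) ∧
    (∃ S, S.card = crosscut (expansion 1 (shadow H)) ∧ IsCrosscut (expansion 1 (shadow H)) S) ∧
    ∀ᶠ n : ℕ in atTop,
      c * (crosscut (expansion 1 (shadow H)) : ℝ) * (n.choose (r - 1) : ℝ) ≤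
        (ex r n (expansion 1 (shadow H)) : ℝ)

lemma Beats.mono {r : ℕ} {c c' : ℝ} (h : Beats r c) (hc : c' ≤ c) : Beats r c' := by
  obtain ⟨H, h1, h2, h3, h4, h5, h6⟩ := h
  refine ⟨H, h1, h2, h3, h4, h5, ?_⟩
  filter_upwards [h6] with n hn
  refine le_trans ?_ hn
  rw [mul_assoc, mul_assoc]
  exact mul_le_mul_of_nonneg_right hc (by positivity)

lemma beats_of {r : ℕ} (hr : 3 ≤ r) {c : ℝ} (h : ∃ M : ℕ, ∀ᶠ n : ℕ in atTop,
      c * (crosscut (expansion 1 (shadow (tree (r - 1) M))) : ℝ) * (n.choose (r - 1) : ℝ) ≤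
        (ex r n (expansion 1 (shadow (tree (r - 1) M))) : ℝ)) : Beats r c := by
  obtain ⟨M, hM⟩ := h
  have hr1 : r - 1 + 1 = r := by omega
  have h1 := crosscut_spec (shadow_tree_nonempty (r - 1) M)
  refine ⟨tree (r - 1) M, tree_nonempty _ _, ?_, tree_tight (by omega) M, h1.1, h1.2, hM⟩
  have := tree_uniform (r - 1) M
  rwa [hr1] at this

lemma exists_factor : ∃ f : ℕ → ℝ, (∀ r ≥ 5, 99 / 80 ≤ f r) ∧ Tendsto f atTop (𝓝 2) ∧
    ∀ r ≥ 5, ∀ c < f r, Beats r c := by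
  set f : ℕ → ℝ := fun r => sSup {c : ℝ | c ≤ 2 ∧ Beats r c} with hf
  have hbdd : ∀ r, BddAbove {c : ℝ | c ≤ 2 ∧ Beats r c} := fun r => ⟨2, fun c hc => hc.1⟩
  have h5 : ∀ r : ℕ, 5 ≤ r → ∀ c : ℝ, c < 99 / 80 → Beats r c := fun r hr c hc =>
    beats_of (by omega) (main_five r hr c hc)
  have hle : ∀ r : ℕ, 5 ≤ r → f r ≤ 2 := by
    intro r hr
    refine csSup_le ⟨1, by norm_num, h5 r hr 1 (by norm_num)⟩ (fun c hc => hc.1)
  have hge : ∀ (r : ℕ) (c : ℝ), c ≤ 2 → Beats r c → c ≤ f r := fun r c hc h =>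
    le_csSup (hbdd r) ⟨hc, h⟩
  refine ⟨f, ?_, ?_, ?_⟩
  · intro r hr
    refine le_of_forall_lt (fun c hc => ?_)
    obtain ⟨d, hd1, hd2⟩ := exists_between hc
    exact hd1.trans_le (hge r d (by linarith) (h5 r hr d hd2))
  · rw [Metric.tendsto_atTop]
    intro ε hε
    obtain ⟨r₀, hr₀⟩ := main_large (2 - ε / 2) (by linarith)
    refine ⟨r₀ + 5, fun r hr => ?_⟩
    obtain ⟨h3, hM⟩ := hr₀ r (by omega)
    have h1 := hge r (2 - ε / 2) (by linarith) (beats_of h3 hM)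
    have h2 := hle r (by omega)
    rw [Real.dist_eq, abs_lt]
    constructor <;> linarith
  · intro r hr c hc
    have hne : {c : ℝ | c ≤ 2 ∧ Beats r c}.Nonempty := ⟨1, by norm_num, h5 r hr 1 (by norm_num)⟩
    obtain ⟨d, hd, hcd⟩ := exists_lt_of_lt_csSup hne hc
    exact hd.2.mono hcd.le

end MP_182bbb_co.H67
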