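import Pool.Agent.Lib.MP_182bbb_co.H5.Basic
import Pool.Agent.Lib.MP_182bbb_co.H67.Dens

/-!
# MP_182bbb_co : a lower bound for `ex_r(n, (∂H)^+)` that beats the crosscut bound
-/

open Finset hiding shadow
open MP_182bbb_co.H5

namespace MP_182bbb_co.H67

variable {α : Type*} [DecidableEq α]

lemma mem_shadow {F : Finset (Finset α)} {s : Finset α} :
    s ∈ shadow F ↔ ∃ e ∈ F, ∃ x ∈ e, e.erase x = s := by
  simp [shadow]

lemma mem_verts_shadow {H : Finset (Finset α)} {k : ℕ} (hk : 0 < k) (hH : IsUniform (k + 1) H)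
    {e : Finset α} (he : e ∈ H) {y : α} (hy : y ∈ e) : y ∈ verts (shadow H) := by
  have hc := hH e he
  obtain ⟨x, hx, hne⟩ := Finset.exists_mem_ne (s := e) (by omega) y
  exact mem_verts.2 ⟨e.erase x, mem_shadow.2 ⟨e, he, x, hx, rfl⟩, mem_erase.2 ⟨hne.symm, hy⟩⟩

/-- Suppose that every set `I` of vertices of `T = ∂H`, which meets every edge of `T` in at most one
vertex and meets every edge of `H`, satisfies `|I| + #{s ∈ T : s ∩ I = ∅} ≥ m + 1`.  Then
`ex_r(n, T^+) ≥ ρ m binom(n-m, r-1)` whenever there are `(r-1)`-graphs of density at least `ρ`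
without a complete `(r-1)`-graph on `r` vertices. -/
theorem lower_gen {H : Finset (Finset α)} {k : ℕ} (hk : 0 < k) (hH : IsUniform (k + 1) H)
    {ρ : ℝ} (hρ : Dens k ρ) (m : ℕ)
    (hcost : ∀ I ⊆ verts (shadow H), (∀ s ∈ shadow H, (s ∩ I).card ≤ 1) →
      (∀ e ∈ H, (e ∩ I).Nonempty) →
      m + 1 ≤ I.card + ((shadow H).filter (fun s => Disjoint s I)).card)
    (n : ℕ) (hn : m ≤ n) :
    ρ * m * ((n - m).choose k : ℝ) ≤ (ex (k + 1) n (expansion 1 (shadow H)) : ℝ) := by
  classical
  obtain ⟨L, -, hL⟩ := Finset.exists_subset_card_eq (s := (univ : Finset (Fin n))) (n := m)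
    (by rw [card_univ, Fintype.card_fin]; exact hn)
  obtain ⟨F, hF, hW, hc⟩ := hρ (Fin n) Lᶜ
  have hLc : (Lᶜ).card = n - m := by rw [card_compl, Fintype.card_fin, hL]
  rw [hLc] at hc
  have hFd : ∀ f ∈ F, ∀ x ∈ f, x ∉ L := fun f hf x hx =>
    mem_compl.1 ((mem_powersetCard.1 (hF hf)).1 hx)
  have hFk : ∀ f ∈ F, f.card = k := fun f hf => (mem_powersetCard.1 (hF hf)).2
  let G : Finset (Finset (Fin n)) := (L ×ˢ F).image (fun q => insert q.1 q.2)
  have hGc : G.card = m * F.card := by
    rw [← hL, ← card_product]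
    apply card_image_of_injOn
    rintro ⟨x, p⟩ hq ⟨y, q⟩ hq' h
    rw [mem_coe, mem_product] at hq hq'
    dsimp only at hq hq' h
    have hxq : x ∉ q := fun h => hFd q hq'.2 x h hq.1
    have hxp : x ∉ p := fun h => hFd p hq.2 x h hq.1
    have h1 : x = y := by
      have : x ∈ insert y q := by rw [← h]; exact mem_insert_self _ _
      rcases mem_insert.1 this with h | h
      · exact h
      · exact absurd h hxq
    subst h1
    have h2 : p = q := by
      rw [← erase_insert hxp, h, erase_insert hxq]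
    rw [h2]
  have hGmem : ∀ e ∈ G, ∃ x ∈ L, ∃ f ∈ F, insert x f = e := by
    intro e he
    obtain ⟨⟨x, f⟩, hq, rfl⟩ := mem_image.1 he
    rw [mem_product] at hq
    exact ⟨x, hq.1, f, hq.2, rfl⟩
  -- edges of `G`
  have hGu : IsUniform (k + 1) G := by
    intro e he
    obtain ⟨x, hx, f, hf, rfl⟩ := hGmem e he
    rw [card_insert_of_notMem (fun h => hFd f hf x h hx), hFk f hf]
  have hG1 : ∀ e ∈ G, ∀ x ∈ e, ∀ y ∈ e, x ∈ L → y ∈ L → x = y := by
    intro e he x hx y hy hxL hyL
    obtain ⟨z, hz, f, hf, rfl⟩ := hGmem e he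
    rw [mem_insert] at hx hy
    rcases hx with rfl | hx
    · rcases hy with rfl | hy
      · rfl
      · exact absurd hyL (hFd f hf y hy)
    · exact absurd hxL (hFd f hf x hx)
  have hG2 : ∀ (x : Fin n) (s : Finset (Fin n)), insert x s ∈ G → (∀ y ∈ s, y ∉ L) →
      s.card = k → x ∈ L ∧ s ∈ F := by
    intro x s hxs hs hsc
    obtain ⟨z, hz, f, hf, hzf⟩ := hGmem _ hxs
    have hzx : z = x := by
      have : z ∈ insert x s := by rw [← hzf]; exact mem_insert_self _ _
      rcases mem_insert.1 this with h | h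
      · exact h
      · exact absurd hz (hs z h)
    subst hzx
    refine ⟨hz, ?_⟩
    have h1 : z ∉ f := fun h => hFd f hf z h hz
    have h2 : z ∉ s := fun h => hs z h hz
    have : s = f := by rw [← erase_insert h2, ← hzf, erase_insert h1]
    rw [this]
    exact hf
  have hfree : ¬ ContainsCopy (expansion 1 (shadow H)) G := by
    intro hcopy
    obtain ⟨g, h, hg, hh, hgh, hGe⟩ := exists_of_containsCopy hcopy
    set I : Finset α := (verts (shadow H)).filter (fun v => g v ∈ L) with hI
    have hsv : ∀ s ∈ shadow H, ∀ y ∈ s, y ∈ verts (shadow H) := fun s hs y hy =>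
      mem_verts.2 ⟨s, hs, hy⟩
    have hsc : ∀ s ∈ shadow H, (s.image g).card = k := by
      intro s hs
      obtain ⟨e, he, x, hx, rfl⟩ := mem_shadow.1 hs
      rw [card_image_of_injOn, card_erase_of_mem hx, hH e he]
      · rfl
      · exact hg.mono (fun y hy => hsv _ hs y hy)
    have ha : ∀ s ∈ shadow H, (s ∩ I).card ≤ 1 := by
      intro s hs
      rw [card_le_one]
      intro x hx y hy
      rw [mem_inter, hI, mem_filter] at hx hy
      refine hg hx.2.1 hy.2.1 (hG1 _ (hGe s hs) _ ?_ _ ?_ hx.2.2 hy.2.2)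
      · exact mem_insert_of_mem (mem_image_of_mem g hx.1)
      · exact mem_insert_of_mem (mem_image_of_mem g hy.1)
    have hdisj : ∀ s ∈ shadow H, Disjoint s I → h s ∈ L ∧ s.image g ∈ F := by
      intro s hs hd
      refine hG2 _ _ (hGe s hs) ?_ (hsc s hs)
      intro y hy hyL
      obtain ⟨x, hx, rfl⟩ := mem_image.1 hy
      exact (disjoint_left.1 hd) hx (mem_filter.2 ⟨hsv s hs x hx, hyL⟩)
    have hb : ∀ e ∈ H, (e ∩ I).Nonempty := by
      intro e he
      by_contra hne
      rw [not_nonempty_iff_eq_empty, ← disjoint_iff_inter_eq_empty] at hne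
      have hev : ∀ y ∈ e, y ∈ verts (shadow H) := fun y hy => mem_verts_shadow hk hH he hy
      have hinj : Set.InjOn g (e : Set α) := hg.mono hev
      have hWs : e.image g ⊆ Lᶜ := by
        intro y hy
        obtain ⟨x, hx, rfl⟩ := mem_image.1 hy
        rw [mem_compl]
        intro hxL
        exact (disjoint_left.1 hne) hx (mem_filter.2 ⟨hev x hx, hxL⟩)
      have hWc : (e.image g).card = k + 1 := by rw [card_image_of_injOn hinj, hH e he]
      obtain ⟨e', he', hne'⟩ := hW _ hWs hWc
      rw [mem_powersetCard] at he'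
      obtain ⟨w, hw, hwe⟩ := exists_mem_notMem_of_card_lt_card
        (show e'.card < (e.image g).card by rw [he'.2, hWc]; omega)
      have h1 : e' = (e.image g).erase w := by
        apply eq_of_subset_of_card_le
        · intro y hy
          exact mem_erase.2 ⟨fun hyw => hwe (hyw ▸ hy), he'.1 hy⟩
        · rw [card_erase_of_mem hw, hWc, he'.2]
          rfl
      obtain ⟨x, hx, rfl⟩ := mem_image.1 hw
      have h2 : (e.image g).erase (g x) = (e.erase x).image g := by
        ext y
        simp only [mem_erase, mem_image]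
        constructor
        · rintro ⟨hyx, z, hz, rfl⟩
          exact ⟨z, ⟨fun hzx => hyx (by rw [hzx]), hz⟩, rfl⟩
        · rintro ⟨z, ⟨hzx, hz⟩, rfl⟩
          exact ⟨fun hzx' => hzx (hinj hz hx hzx'), z, hz, rfl⟩
      have hs : e.erase x ∈ shadow H := mem_shadow.2 ⟨e, he, x, hx, rfl⟩
      have := (hdisj _ hs (hne.mono_left (erase_subset _ _))).2
      rw [h1, h2] at hne'
      exact hne' this
    have hcost' := hcost I (filter_subset _ _) ha hb
    have h1 : I.card + ((shadow H).filter (fun s => Disjoint s I)).card ≤ L.card := by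
      have e1 : (I.image g).card = I.card :=
        card_image_of_injOn (hg.mono (fun v hv => (mem_filter.1 (mem_coe.1 hv)).1))
      have e2 : (((shadow H).filter (fun s => Disjoint s I)).image h).card =
          ((shadow H).filter (fun s => Disjoint s I)).card :=
        card_image_of_injOn (hh.mono (fun v hv => (mem_filter.1 (mem_coe.1 hv)).1))
      have e3 : Disjoint (I.image g) (((shadow H).filter (fun s => Disjoint s I)).image h) := by
        rw [disjoint_left]
        intro y hy hy'
        obtain ⟨x, hx, rfl⟩ := mem_image.1 hy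
        obtain ⟨s, hs, hxs⟩ := mem_image.1 hy'
        exact hgh x (mem_filter.1 hx).1 s (mem_filter.1 hs).1 hxs.symm
      rw [← e1, ← e2, ← card_union_of_disjoint e3]
      apply card_le_card
      apply union_subset
      · intro y hy
        obtain ⟨x, hx, rfl⟩ := mem_image.1 hy
        exact (mem_filter.1 hx).2
      · intro y hy
        obtain ⟨s, hs, rfl⟩ := mem_image.1 hy
        exact (hdisj s (mem_filter.1 hs).1 (mem_filter.1 hs).2).1
    omega
  have hle := le_ex G hGu hfree
  have hle' : (m : ℝ) * (F.card : ℝ) ≤ (ex (k + 1) n (expansion 1 (shadow H)) : ℝ) := by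
    rw [hGc] at hle
    exact_mod_cast hle
  calc ρ * m * ((n - m).choose k : ℝ) = m * (ρ * ((n - m).choose k : ℝ)) := by ring
    _ ≤ m * (F.card : ℝ) := by
        apply mul_le_mul_of_nonneg_left hc
        positivity
    _ ≤ _ := hle'

end MP_182bbb_co.H67
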