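import Pool.Agent.Lib.MP_182bbb_co.H67.LowerGen

/-!
# MP_182bbb_co : a tight tree with many pendant edges
-/

open Finset hiding shadow
open MP_182bbb_co.H5

namespace MP_182bbb_co.H67

/-- The vertex type of the examples. -/
abbrev Vx : Type := ℕ ⊕ (ℕ × ℕ)

/-- The `j`-th edge of the tight path: `{j, ..., j + k}`. -/
def core (k j : ℕ) : Finset Vx := (range (k + 1)).image (fun t => Sum.inl (j + t))

/-- The `p`-th pendant edge: it hangs on the hub `(p / M) (k + 2)`. -/
def pend (k M p : ℕ) : Finset Vx :=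
  insert (Sum.inl (p / M * (k + 2))) ((range k).image (fun q => Sum.inr (p, q)))

/-- The `(k+1)`-uniform tight tree: a tight path on `(k+1)^2` vertices, with `M` pendant edges at
each of the `k + 1` hubs `i (k + 2)`, `0 ≤ i ≤ k`. -/
def tree (k M : ℕ) : Finset (Finset Vx) :=
  (range (k * (k + 1) + 1)).image (core k) ∪ (range ((k + 1) * M)).image (pend k M)

lemma mem_core {k j : ℕ} {x : Vx} : x ∈ core k j ↔ ∃ v, j ≤ v ∧ v ≤ j + k ∧ x = Sum.inl v := by
  unfold core
  rw [mem_image]
  constructor
  · rintro ⟨t, ht, rfl⟩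
    rw [mem_range] at ht
    exact ⟨j + t, by omega, by omega, rfl⟩
  · rintro ⟨v, h1, h2, rfl⟩
    exact ⟨v - j, by rw [mem_range]; omega, by congr 1; omega⟩

lemma inl_mem_core {k j v : ℕ} : (Sum.inl v : Vx) ∈ core k j ↔ j ≤ v ∧ v ≤ j + k := by
  rw [mem_core]
  constructor
  · rintro ⟨w, h1, h2, h3⟩
    rw [Sum.inl_injective h3]
    exact ⟨h1, h2⟩
  · rintro ⟨h1, h2⟩
    exact ⟨v, h1, h2, rfl⟩

lemma inr_mem_core {k j : ℕ} {w : ℕ × ℕ} : (Sum.inr w : Vx) ∉ core k j := by
  rw [mem_core]
  rintro ⟨v, -, -, h⟩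
  exact absurd h (by simp)

lemma mem_pend {k M p : ℕ} {x : Vx} :
    x ∈ pend k M p ↔ x = Sum.inl (p / M * (k + 2)) ∨ ∃ q < k, x = Sum.inr (p, q) := by
  unfold pend
  rw [mem_insert, mem_image]
  simp only [mem_range, eq_comm]

lemma inl_mem_pend {k M p v : ℕ} :
    (Sum.inl v : Vx) ∈ pend k M p ↔ v = p / M * (k + 2) := by
  rw [mem_pend]
  simp

lemma inr_mem_pend {k M p : ℕ} {w : ℕ × ℕ} :
    (Sum.inr w : Vx) ∈ pend k M p ↔ w.1 = p ∧ w.2 < k := by
  rw [mem_pend]
  constructor
  · rintro (h | ⟨q, hq, h⟩)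
    · exact absurd h (by simp)
    · have := Sum.inr_injective h
      subst this
      exact ⟨rfl, hq⟩
  · rintro ⟨h1, h2⟩
    right
    refine ⟨w.2, h2, ?_⟩
    rw [← h1]

lemma card_core (k j : ℕ) : (core k j).card = k + 1 := by
  unfold core
  rw [card_image_of_injective, card_range]
  intro a b h
  have := Sum.inl_injective h
  omega

lemma card_pend (k M p : ℕ) : (pend k M p).card = k + 1 := by
  unfold pend
  rw [card_insert_of_notMem, card_image_of_injective, card_range]
  · intro a b h
    have := Sum.inr_injective h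
    exact (Prod.ext_iff.1 this).2
  · simp

lemma mem_tree {k M : ℕ} {e : Finset Vx} : e ∈ tree k M ↔
    (∃ j ≤ k * (k + 1), core k j = e) ∨ (∃ p < (k + 1) * M, pend k M p = e) := by
  unfold tree
  rw [mem_union, mem_image, mem_image]
  simp only [mem_range, Nat.lt_succ_iff]

lemma tree_uniform (k M : ℕ) : IsUniform (k + 1) (tree k M) := by
  intro e he
  rcases mem_tree.1 he with ⟨j, -, rfl⟩ | ⟨p, -, rfl⟩
  · exact card_core k j
  · exact card_pend k M p

lemma tree_nonempty (k M : ℕ) : (tree k M).Nonempty :=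
  ⟨core k 0, mem_tree.2 (Or.inl ⟨0, by omega, rfl⟩)⟩

/-- The edges as one sequence. -/
def seq (k M i : ℕ) : Finset Vx :=
  if i ≤ k * (k + 1) then core k i else pend k M (i - (k * (k + 1) + 1))

lemma core_inj {k j j' : ℕ} (h : core k j = core k j') : j = j' := by
  have h1 : (Sum.inl j : Vx) ∈ core k j' := by
    rw [← h, inl_mem_core]
    omega
  have h2 : (Sum.inl j' : Vx) ∈ core k j := by
    rw [h, inl_mem_core]
    omega
  rw [inl_mem_core] at h1 h2
  omega

lemma pend_inj {k M p p' : ℕ} (hk : 0 < k) (h : pend k M p = pend k M p') : p = p' := by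
  have h1 : (Sum.inr (p, 0) : Vx) ∈ pend k M p' := by
    rw [← h, inr_mem_pend]
    exact ⟨rfl, hk⟩
  rw [inr_mem_pend] at h1
  exact h1.1

lemma core_ne_pend {k M j p : ℕ} (hk : 0 < k) : core k j ≠ pend k M p := by
  intro h
  have h1 : (Sum.inr (p, 0) : Vx) ∈ core k j := by
    rw [h, inr_mem_pend]
    exact ⟨rfl, hk⟩
  exact inr_mem_core h1

lemma tree_tight {k : ℕ} (hk : 0 < k) (M : ℕ) : IsTightTree (tree k M) := by
  refine ⟨k * (k + 1) + 1 + (k + 1) * M, fun i => seq k M i, ?_, ?_, ?_⟩
  · intro i i' h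
    dsimp only at h
    unfold seq at h
    apply Fin.ext
    split_ifs at h with h1 h2 h2
    · exact core_inj h
    · exact absurd h (core_ne_pend hk)
    · exact absurd h.symm (core_ne_pend hk)
    · have := pend_inj hk h
      omega
  · ext e
    rw [mem_image, mem_tree]
    constructor
    · rintro ⟨i, -, rfl⟩
      unfold seq
      split_ifs with h1
      · exact Or.inl ⟨i, h1, rfl⟩
      · have := i.2
        exact Or.inr ⟨i - (k * (k + 1) + 1), by omega, rfl⟩
    · rintro (⟨j, hj, rfl⟩ | ⟨p, hp, rfl⟩)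
      · refine ⟨⟨j, by omega⟩, mem_univ _, ?_⟩
        unfold seq
        rw [if_pos hj]
      · refine ⟨⟨k * (k + 1) + 1 + p, by omega⟩, mem_univ _, ?_⟩
        unfold seq
        rw [if_neg (by dsimp only; omega)]
        congr 1
        dsimp only
        omega
  · intro i hi
    by_cases h1 : (i : ℕ) ≤ k * (k + 1)
    · have hi2 := i.2
      refine ⟨⟨i - 1, by omega⟩, ?_, ?_⟩
      · rw [Fin.lt_def]
        dsimp only
        omega
      · intro x hx
        rw [mem_inter, mem_biUnion] at hx
        obtain ⟨hx1, l, hl, hx2⟩ := hx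
        rw [mem_Iio, Fin.lt_def] at hl
        beta_reduce at hx1 hx2 ⊢
        unfold seq at hx1 hx2 ⊢
        rw [if_pos h1] at hx1
        rw [if_pos (by omega)] at hx2
        rw [if_pos (by dsimp only; omega)]
        obtain ⟨v, h3, h4, rfl⟩ := mem_core.1 hx1
        rw [inl_mem_core] at hx2 ⊢
        dsimp only
        omega
    · have hi2 := i.2
      have hM : 0 < M := by
        rcases Nat.eq_zero_or_pos M with h | h
        · subst h
          omega
        · exact h
      set p := (i : ℕ) - (k * (k + 1) + 1) with hp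
      have hpM : p < (k + 1) * M := by omega
      have hpM2 : p / M ≤ k := by
        rw [← Nat.lt_succ_iff]
        exact Nat.div_lt_of_lt_mul (by rw [mul_comm]; exact hpM)
      refine ⟨⟨min (p / M * (k + 2)) (k * (k + 1)), ?_⟩, ?_, ?_⟩
      · have := min_le_right (p / M * (k + 2)) (k * (k + 1))
        omega
      · rw [Fin.lt_def]
        have := min_le_right (p / M * (k + 2)) (k * (k + 1))
        dsimp only
        omega
      · intro x hx
        rw [mem_inter, mem_biUnion] at hx
        obtain ⟨hx1, l, hl, hx2⟩ := hx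
        rw [mem_Iio, Fin.lt_def] at hl
        beta_reduce at hx1 hx2 ⊢
        unfold seq at hx1 hx2 ⊢
        rw [if_neg h1, ← hp] at hx1
        rw [if_pos (min_le_right _ _)]
        rcases mem_pend.1 hx1 with rfl | ⟨q, hq, rfl⟩
        · rw [inl_mem_core]
          dsimp only
          refine ⟨min_le_left _ _, ?_⟩
          rcases Nat.lt_or_ge (p / M) k with h | h
          · have h5 : p / M * (k + 2) ≤ k * (k + 1) := by
              have : p / M + 1 ≤ k := h
              have h6 : (p / M + 1) * (k + 2) ≤ k * (k + 2) := Nat.mul_le_mul_right _ this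
              nlinarith
            rw [min_eq_left h5]
            omega
          · have h5 : p / M = k := by omega
            rw [h5, min_eq_right (by nlinarith)]
            nlinarith
        · exfalso
          split_ifs at hx2 with h3
          · exact inr_mem_core hx2
          · rw [inr_mem_pend] at hx2
            omega

/-! ### The crosscut number -/

/-- `S` is a crosscut of `F`: it meets every edge of `F` in exactly one vertex. -/
def IsCrosscut {β : Type*} [DecidableEq β] (F : Finset (Finset β)) (S : Finset β) : Prop :=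
  ∀ e ∈ F, (e ∩ S).card = 1

/-- The crosscut number `σ(F)`: the least size of a crosscut of `F`. -/
noncomputable def crosscut {β : Type*} [DecidableEq β] (F : Finset (Finset β)) : ℕ :=
  sInf {k : ℕ | ∃ S : Finset β, S.card = k ∧ IsCrosscut F S}

/-- `T^+` has crosscuts, and the least size of one is attained and positive. -/
lemma crosscut_spec {α : Type*} [DecidableEq α] {T : Finset (Finset α)} (hT : T.Nonempty) :
    0 < crosscut (expansion 1 T) ∧
      ∃ S, S.card = crosscut (expansion 1 T) ∧ IsCrosscut (expansion 1 T) S := by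
  classical
  have hne : {k : ℕ | ∃ S : Finset (α ⊕ (Finset α × Fin 1)), S.card = k ∧
      IsCrosscut (expansion 1 T) S}.Nonempty := by
    refine ⟨_, T.image (fun s => Sum.inr (s, 0)), rfl, ?_⟩
    intro e he
    obtain ⟨s, hs, rfl⟩ := mem_expansion_one.1 he
    rw [card_eq_one]
    refine ⟨Sum.inr (s, 0), ?_⟩
    ext x
    rw [mem_inter, mem_singleton, mem_insert, mem_image, mem_image]
    constructor
    · rintro ⟨rfl | ⟨y, hy, rfl⟩, hx⟩
      · rfl
      · obtain ⟨z, -, hz⟩ := hx
        exact absurd hz (by simp)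
    · rintro rfl
      exact ⟨Or.inl rfl, s, hs, rfl⟩
  have hmem := Nat.sInf_mem hne
  obtain ⟨S, hS, hS'⟩ := hmem
  refine ⟨?_, S, hS, hS'⟩
  obtain ⟨s, hs⟩ := hT
  have h1 := hS' _ (mem_expansion_one.2 ⟨s, hs, rfl⟩)
  unfold crosscut
  rw [← hS, card_pos]
  have h2 : 0 < (insert (Sum.inr (s, 0)) (s.image Sum.inl) ∩ S).card := by omega
  obtain ⟨x, hx⟩ := card_pos.1 h2
  exact ⟨x, (mem_inter.1 hx).2⟩

/-- The hubs. -/
def hubs (k : ℕ) : Finset Vx := (range (k + 1)).image (fun i => Sum.inl (i * (k + 2)))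

lemma mem_hubs {k : ℕ} {x : Vx} : x ∈ hubs k ↔ ∃ i ≤ k, x = Sum.inl (i * (k + 2)) := by
  unfold hubs
  rw [mem_image]
  simp only [mem_range, Nat.lt_succ_iff, eq_comm]

lemma hub_unique_core {k j : ℕ} {x y : Vx} (hx : x ∈ core k j) (hy : y ∈ core k j)
    (hx' : x ∈ hubs k) (hy' : y ∈ hubs k) : x = y := by
  obtain ⟨a, -, rfl⟩ := mem_hubs.1 hx'
  obtain ⟨b, -, rfl⟩ := mem_hubs.1 hy'
  rw [inl_mem_core] at hx hy
  rcases Nat.lt_trichotomy a b with h | h | h
  · have : (a + 1) * (k + 2) ≤ b * (k + 2) := Nat.mul_le_mul_right _ h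
    rw [add_mul] at this
    omega
  · rw [h]
  · have : (b + 1) * (k + 2) ≤ a * (k + 2) := Nat.mul_le_mul_right _ h
    rw [add_mul] at this
    omega

lemma hub_pend {k M p : ℕ} {x : Vx} (hx : x ∈ pend k M p) (hx' : x ∈ hubs k) :
    x = Sum.inl (p / M * (k + 2)) := by
  obtain ⟨a, -, rfl⟩ := mem_hubs.1 hx'
  rw [inl_mem_pend] at hx
  rw [hx]

lemma div_le {k M p : ℕ} (hp : p < (k + 1) * M) : p / M ≤ k := by
  rw [← Nat.lt_succ_iff]
  exact Nat.div_lt_of_lt_mul (by rw [mul_comm]; exact hp)

lemma crosscut_le {k : ℕ} (M : ℕ) :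
    crosscut (expansion 1 (shadow (tree k M))) ≤
      (k + 1) + ((k + 1) * (k * (k + 1) + 1) + (k + 1) * M) := by
  classical
  set A : Finset (Finset Vx) := (shadow (tree k M)).filter (fun s => Disjoint s (hubs k)) with hA
  set S : Finset (Vx ⊕ (Finset Vx × Fin 1)) :=
    (hubs k).image Sum.inl ∪ A.image (fun s => Sum.inr (s, 0)) with hS
  have h1 : ∀ e ∈ expansion 1 (shadow (tree k M)), (e ∩ S).card = 1 := by
    intro e he
    obtain ⟨s, hs, rfl⟩ := mem_expansion_one.1 he
    rw [card_eq_one]
    by_cases hd : Disjoint s (hubs k)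
    · refine ⟨Sum.inr (s, 0), ?_⟩
      ext x
      rw [mem_inter, mem_singleton, mem_insert, mem_image, hS, mem_union, mem_image, mem_image]
      constructor
      · rintro ⟨rfl | ⟨y, hy, rfl⟩, hx⟩
        · rfl
        · exfalso
          rcases hx with ⟨z, hz, hzy⟩ | ⟨z, -, hzy⟩
          · have := Sum.inl_injective hzy
            subst this
            exact (disjoint_left.1 hd) hy hz
          · exact absurd hzy (by simp)
      · rintro rfl
        exact ⟨Or.inl rfl, Or.inr ⟨s, mem_filter.2 ⟨hs, hd⟩, rfl⟩⟩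
    · rw [not_disjoint_iff] at hd
      obtain ⟨a, ha, ha'⟩ := hd
      have hun : ∀ b ∈ s, b ∈ hubs k → b = a := by
        intro b hb hb'
        obtain ⟨e', he', x, hx, rfl⟩ := mem_shadow.1 hs
        have hb2 := mem_of_mem_erase hb
        have ha2 := mem_of_mem_erase ha
        rcases mem_tree.1 he' with ⟨j, -, rfl⟩ | ⟨p, -, rfl⟩
        · exact hub_unique_core hb2 ha2 hb' ha'
        · rw [hub_pend hb2 hb', hub_pend ha2 ha']
      refine ⟨Sum.inl a, ?_⟩
      ext x
      rw [mem_inter, mem_singleton, mem_insert, mem_image, hS, mem_union, mem_image, mem_image]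
      constructor
      · rintro ⟨rfl | ⟨y, hy, rfl⟩, hx⟩
        · exfalso
          rcases hx with ⟨z, hz, hzy⟩ | ⟨z, hz, hzy⟩
          · exact absurd hzy (by simp)
          · have := (Prod.ext_iff.1 (Sum.inr_injective hzy)).1
            dsimp only at this
            subst this
            exact (disjoint_left.1 (mem_filter.1 hz).2) ha ha'
        · rcases hx with ⟨z, hz, hzy⟩ | ⟨z, -, hzy⟩
          · have := Sum.inl_injective hzy
            subst this
            rw [hun z hy hz]
          · exact absurd hzy (by simp)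
      · rintro rfl
        exact ⟨Or.inr ⟨a, ha, rfl⟩, Or.inl ⟨a, ha', rfl⟩⟩
  have h2 : crosscut (expansion 1 (shadow (tree k M))) ≤ S.card := Nat.sInf_le ⟨S, rfl, h1⟩
  have h3 : A ⊆ ((range (k * (k + 1) + 1)).biUnion
      (fun j => (core k j).image (fun x => (core k j).erase x))) ∪
      (range ((k + 1) * M)).image (fun p => (pend k M p).erase (Sum.inl (p / M * (k + 2)))) := by
    intro s hs
    rw [hA, mem_filter] at hs
    obtain ⟨e, he, x, hx, rfl⟩ := mem_shadow.1 hs.1
    rw [mem_union]
    rcases mem_tree.1 he with ⟨j, hj, rfl⟩ | ⟨p, hp, rfl⟩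
    · left
      rw [mem_biUnion]
      exact ⟨j, mem_range.2 (by omega), mem_image.2 ⟨x, hx, rfl⟩⟩
    · right
      rw [mem_image]
      refine ⟨p, mem_range.2 hp, ?_⟩
      have h4 : x = Sum.inl (p / M * (k + 2)) := by
        by_contra hne
        refine (disjoint_left.1 hs.2) (a := Sum.inl (p / M * (k + 2))) ?_ ?_
        · exact mem_erase.2 ⟨fun h => hne h.symm, inl_mem_pend.2 rfl⟩
        · exact mem_hubs.2 ⟨p / M, div_le hp, rfl⟩
      rw [h4]
  have h5 : A.card ≤ (k + 1) * (k * (k + 1) + 1) + (k + 1) * M := by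
    refine (card_le_card h3).trans ((card_union_le _ _).trans (Nat.add_le_add ?_ ?_))
    · refine card_biUnion_le.trans ?_
      calc ∑ j ∈ range (k * (k + 1) + 1), ((core k j).image (fun x => (core k j).erase x)).card
          ≤ ∑ _j ∈ range (k * (k + 1) + 1), (k + 1) :=
            Finset.sum_le_sum (fun j _ => card_image_le.trans (card_core k j).le)
        _ = (k + 1) * (k * (k + 1) + 1) := by
            rw [sum_const, card_range, smul_eq_mul, mul_comm]
    · exact card_image_le.trans (card_range _).le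
  refine h2.trans ((card_union_le _ _).trans (Nat.add_le_add ?_ ?_))
  · exact card_image_le.trans (card_image_le.trans (card_range _).le)
  · exact card_image_le.trans h5

/-! ### The cost of an admissible set -/

lemma cost_tree {k : ℕ} (hk : 2 ≤ k) (M : ℕ) (I : Finset Vx)
    (h1 : ∀ s ∈ shadow (tree k M), (s ∩ I).card ≤ 1)
    (h2 : ∀ e ∈ tree k M, (e ∩ I).Nonempty) :
    (2 * k + 1) * M ≤ I.card + ((shadow (tree k M)).filter (fun s => Disjoint s I)).card := by
  classical
  -- every edge has exactly one vertex in `I`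
  have hun : ∀ e ∈ tree k M, ∀ x ∈ e, ∀ y ∈ e, x ∈ I → y ∈ I → x = y := by
    intro e he x hx y hy hxI hyI
    by_contra hxy
    have hc := tree_uniform k M e he
    have : ∃ z ∈ e, z ≠ x ∧ z ≠ y := by
      have h3 : 0 < ((e.erase x).erase y).card := by
        rw [card_erase_of_mem (mem_erase.2 ⟨fun h => hxy h.symm, hy⟩), card_erase_of_mem hx, hc]
        omega
      obtain ⟨z, hz⟩ := card_pos.1 h3
      rw [mem_erase, mem_erase] at hz
      exact ⟨z, hz.2.2, hz.2.1, hz.1⟩
    obtain ⟨z, hz, hzx, hzy⟩ := this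
    have h4 := h1 (e.erase z) (mem_shadow.2 ⟨e, he, z, hz, rfl⟩)
    rw [card_le_one] at h4
    exact hxy (h4 x (mem_inter.2 ⟨mem_erase.2 ⟨hzx.symm, hx⟩, hxI⟩) y
      (mem_inter.2 ⟨mem_erase.2 ⟨hzy.symm, hy⟩, hyI⟩))
  have hcoreT : ∀ j ≤ k * (k + 1), core k j ∈ tree k M := fun j hj =>
    mem_tree.2 (Or.inl ⟨j, hj, rfl⟩)
  have hpendT : ∀ p < (k + 1) * M, pend k M p ∈ tree k M := fun p hp =>
    mem_tree.2 (Or.inr ⟨p, hp, rfl⟩)
  -- going down the path
  have hdown : ∀ j, j + 1 ≤ k * (k + 1) → (Sum.inl (j + (k + 1)) : Vx) ∈ I →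
      (Sum.inl j : Vx) ∈ I := by
    intro j hj hI
    obtain ⟨x, hx⟩ := h2 (core k j) (hcoreT j (by omega))
    rw [mem_inter] at hx
    obtain ⟨v, h3, h4, rfl⟩ := mem_core.1 hx.1
    rcases Nat.eq_or_lt_of_le h3 with h5 | h5
    · rw [h5]
      exact hx.2
    · exfalso
      have h6 := hun (core k (j + 1)) (hcoreT _ hj) (Sum.inl v)
        (inl_mem_core.2 ⟨by omega, by omega⟩) (Sum.inl (j + (k + 1)))
        (inl_mem_core.2 ⟨by omega, by omega⟩) hx.2 hI
      have := Sum.inl_injective h6
      omega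
  have hdown2 : ∀ t i, i + t * (k + 1) ≤ k * (k + 2) → (Sum.inl (i + t * (k + 1)) : Vx) ∈ I →
      (Sum.inl i : Vx) ∈ I := by
    intro t
    induction t with
    | zero =>
      intro i _ h
      simpa using h
    | succ t ih =>
      intro i hi h
      have h3 : i + (t + 1) * (k + 1) = (i + t * (k + 1)) + (k + 1) := by ring
      rw [h3] at hi h
      refine ih i (by omega) (hdown _ ?_ h)
      have : k * (k + 2) = k * (k + 1) + k := by ring
      omega
  have hhub : ∀ i ≤ k, ∀ i' ≤ k, (Sum.inl (i * (k + 2)) : Vx) ∈ I →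
      (Sum.inl (i' * (k + 2)) : Vx) ∈ I → i = i' := by
    intro i hi i' hi' h h'
    have e1 : ∀ i, i * (k + 2) = i + i * (k + 1) := fun i => by ring
    have e2 : ∀ i ≤ k, i + i * (k + 1) ≤ k * (k + 2) := by
      intro i hi
      rw [← e1]
      exact Nat.mul_le_mul_right _ hi
    rw [e1] at h h'
    have h3 := hdown2 i i (e2 i hi) h
    have h4 := hdown2 i' i' (e2 i' hi') h'
    exact Sum.inl_injective (hun (core k 0) (hcoreT 0 (by omega)) _
      (inl_mem_core.2 ⟨by omega, by omega⟩) _ (inl_mem_core.2 ⟨by omega, by omega⟩) h3 h4)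
  -- the pendant edges whose hub is in `I`
  set B : Finset ℕ := (range ((k + 1) * M)).filter
    (fun p => (Sum.inl (p / M * (k + 2)) : Vx) ∈ I) with hB
  have hBc : B.card ≤ M := by
    rcases B.eq_empty_or_nonempty with h | ⟨p0, hp0⟩
    · rw [h]
      simp
    · have hM : 0 < M := by
        rcases Nat.eq_zero_or_pos M with h | h
        · subst h
          rw [hB] at hp0
          simp at hp0
        · exact h
      have : B ⊆ Finset.Ico (p0 / M * M) (p0 / M * M + M) := by
        intro p hp
        rw [hB, mem_filter, mem_range] at hp hp0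
        have h3 := hhub _ (div_le hp.1) _ (div_le hp0.1) hp.2 hp0.2
        rw [mem_Ico, ← h3]
        refine ⟨Nat.div_mul_le_self p M, ?_⟩
        have h4 := Nat.div_add_mod p M
        have h5 := Nat.mod_lt p hM
        rw [mul_comm] at h4
        omega
      calc B.card ≤ _ := card_le_card this
        _ = M := by rw [Nat.card_Ico]; omega
  have hBc2 : (k + 1) * M ≤ B.card +
      ((range ((k + 1) * M)).filter (fun p => ¬ (Sum.inl (p / M * (k + 2)) : Vx) ∈ I)).card := by
    rw [hB, card_filter_add_card_filter_not, card_range]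
  -- the private vertices in `I`
  have hch : ∀ p ∈ range ((k + 1) * M), ∃ x ∈ pend k M p, x ∈ I := by
    intro p hp
    obtain ⟨x, hx⟩ := h2 _ (hpendT p (mem_range.1 hp))
    rw [mem_inter] at hx
    exact ⟨x, hx⟩
  choose! v hv1 hv2 using hch
  have hvI : ((range ((k + 1) * M)).filter
      (fun p => ¬ (Sum.inl (p / M * (k + 2)) : Vx) ∈ I)).card ≤ I.card := by
    refine card_le_card_of_injOn v ?_ ?_
    · intro p hp
      rw [mem_coe, mem_filter] at hp
      exact hv2 p hp.1
    · intro p hp p' hp' h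
      rw [mem_coe, mem_filter] at hp hp'
      have h3 := hv1 p hp.1
      have h4 := hv1 p' hp'.1
      rcases mem_pend.1 h3 with h5 | ⟨q, hq, h5⟩
      · exact absurd (h5 ▸ hv2 p hp.1) hp.2
      · rw [← h, h5, inr_mem_pend] at h4
        exact h4.1
  have hfac : (k + 1) * M ≤ ((shadow (tree k M)).filter (fun s => Disjoint s I)).card := by
    have h3 : ((range ((k + 1) * M)).image (fun p => (pend k M p).erase (v p))).card =
        (k + 1) * M := by
      rw [card_image_of_injOn, card_range]
      intro p hp p' hp' h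
      dsimp only at h
      have h4 : 0 < (((pend k M p).erase (v p)).erase (Sum.inl (p / M * (k + 2)))).card := by
        have h6 := card_erase_of_mem (hv1 p hp)
        rw [card_pend] at h6
        have h7 := Finset.pred_card_le_card_erase (s := (pend k M p).erase (v p))
          (a := Sum.inl (p / M * (k + 2)))
        omega
      obtain ⟨x, hx⟩ := card_pos.1 h4
      rw [mem_erase] at hx
      have hx2 := hx.2
      rw [h] at hx2
      have h5 := mem_of_mem_erase hx.2
      have h6 := mem_of_mem_erase hx2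
      rcases mem_pend.1 h5 with h7 | ⟨q, hq, h7⟩
      · exact absurd h7 hx.1
      · rw [h7, inr_mem_pend] at h6
        exact h6.1
    rw [← h3]
    apply card_le_card
    intro s hs
    obtain ⟨p, hp, rfl⟩ := mem_image.1 hs
    rw [mem_filter]
    refine ⟨mem_shadow.2 ⟨_, hpendT p (mem_range.1 hp), _, hv1 p hp, rfl⟩, ?_⟩
    rw [disjoint_left]
    intro x hx hxI
    rw [mem_erase] at hx
    exact hx.1 (hun _ (hpendT p (mem_range.1 hp)) x hx.2 (v p) (hv1 p hp) hxI (hv2 p hp))
  have e3 : (2 * k + 1) * M = (k + 1) * M + (k + 1) * M - M := by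
    have : (2 * k + 1) * M + M = (k + 1) * M + (k + 1) * M := by ring
    omega
  omega

end MP_182bbb_co.H67
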